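import Pool.Agent.LE.StmtsQZ

/-!
# The jet of `Ξ = (1 - τ B)⁻¹ - 1`
-/

set_option autoImplicit false

open MeasureTheory ProbabilityTheory Function Filter

open scoped ENNReal BigOperators Topology NNReal ComplexOrder Matrix

noncomputable section

namespace Pool.Agent.LE.QZ.H92

open Pool.Agent.Anderson hiding box mem_box card_box
open Pool.Agent.Loc Pool.Agent.Mob Pool.Agent.Helper54.Bal
  Pool.Agent.Helper96.EXP Pool.Agent.BED
open Pool.Agent.LE.MN Pool.Agent.LE.CL Pool.Agent.LE.IR Pool.Agent.LE.QD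
open Pool.Agent.LE.QF

theorem HJ_of_eq {ι : Type} [Fintype ι] [DecidableEq ι] {E : Type} [NormedAddCommGroup E]
    [NormedSpace ℝ E] {F F' : ℝ × (ι → ℝ) → E} {q : ℝ × (ι → ℝ)} {v v' : E} {g g' : ι → E}
    {l l' : E} (h : HJ F q v g l) (hF : F = F') (hv : v = v') (hg : g = g') (hl : l = l') :
    HJ F' q v' g' l' := by
  subst hF hv hg hl
  exact h

theorem xjt (jal : JalStmt) (jma : JmaStmt) (jtb : JtbStmt) : XjtStmt := by
  intro X _ _ q Gm ta G Θ m τ μ hτ hyp hμ hu hΘ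
  obtain ⟨-, -, -, hY, -⟩ := jtb X q Gm ta G m τ μ hyp hμ
  obtain ⟨Yc, hYc⟩ : ∃ Yc : X → Matrix X X ℂ, Yc = fun c => (τ : ℂ) • dB G c := ⟨_, rfl⟩
  have hYcc : ∀ c, (τ : ℂ) • dB G c = Yc c := by
    intro c
    rw [hYc]
  obtain ⟨Yl, hYl⟩ : ∃ Yl : Matrix X X ℂ, Yl = -BB G + (τ : ℂ) • (BB G * BB G + EB G μ) :=
    ⟨_, rfl⟩
  -- the jet of `1 - Y`
  have h1 : HM (fun r => (1 : Matrix X X ℂ) - (ta r.1 : ℂ) • BB (Gm r)) q
      (1 - (τ : ℂ) • BB G) (fun c => -Yc c) (-Yl) := by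
    intro x y
    have h2 := ((jal X ℂ q).2.2.1 _ _ _ _ _ _ _ _ ((jal X ℂ q).1 ((1 : Matrix X X ℂ) x y))
      (hY x y)).2.1
    refine HJ_of_eq h2 ?_ ?_ ?_ ?_
    · rfl
    · rfl
    · funext c
      simp only [← hYcc, Matrix.neg_apply, zero_sub]
    · rw [hYl, Matrix.neg_apply, zero_sub]
  -- the jet of the inverse
  have h3 := ((jma X ℂ q).2 X _ _ _ _ h1).1 hu
  rw [← hΘ] at h3
  have hinv : (1 - (τ : ℂ) • BB G) * Θ = 1 := by
    rw [hΘ, Matrix.mul_nonsing_inv _ hu]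
  have hinv' : Θ * (1 - (τ : ℂ) • BB G) = 1 := by
    rw [hΘ, Matrix.nonsing_inv_mul _ hu]
  have hτ0 : (τ : ℂ) ≠ 0 := by exact_mod_cast hτ.ne'
  have h5 : Θ * BB G = ((1 / τ : ℝ) : ℂ) • (Θ - 1) := by
    have h6 : (τ : ℂ) • (Θ * BB G) = Θ - 1 := by
      rw [Matrix.mul_sub, Matrix.mul_one, Matrix.mul_smul] at hinv'
      rw [← hinv']
      abel
    rw [← h6, smul_smul]
    have h7 : ((1 / τ : ℝ) : ℂ) * (τ : ℂ) = 1 := by
      push_cast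
      field_simp
    rw [h7, one_smul]
  have h8 : Yl = -(BB G * (1 - (τ : ℂ) • BB G)) + (τ : ℂ) • EB G μ := by
    rw [hYl, Matrix.mul_sub, Matrix.mul_one, Matrix.mul_smul, smul_add]
    abel
  have h9 : Θ * Yl * Θ = -(((1 / τ : ℝ) : ℂ) • (Θ - 1)) + Θ * ((τ : ℂ) • EB G μ) * Θ := by
    rw [h8, Matrix.mul_add, Matrix.add_mul, Matrix.mul_neg, Matrix.neg_mul, ← Matrix.mul_assoc,
      Matrix.mul_assoc (Θ * BB G), hinv, Matrix.mul_one, h5]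
  intro x y
  have h4 := ((jal X ℂ q).2.2.1 _ _ _ _ _ _ _ _ (h3 x y)
    ((jal X ℂ q).1 ((1 : Matrix X X ℂ) x y))).2.1
  refine HJ_of_eq h4 ?_ ?_ ?_ ?_
  · rfl
  · rfl
  · funext c
    simp only [hYcc, Matrix.mul_neg, Matrix.neg_mul, neg_neg, sub_zero]
  · simp only [hYcc, Matrix.mul_neg, Matrix.neg_mul, neg_neg, sub_zero]
    rw [h9, add_assoc]

end Pool.Agent.LE.QZ.H92
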